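import Pool.Agent.H15.CycC

/-!
# MP_037fd6_co: for every `k` there is, in ZFC, a graph of chromatic number `ℵ₁` with no
`K(ℵ₀,ℵ₀)` and no odd cycle of length at most `2k+1`
-/

set_option autoImplicit false

namespace Pool.Agent.Results.MP_037fd6_co.OddGirth

/-- For every `k` there is a graph `G` of chromatic number exactly `ℵ₁` (every colour set of a
proper colouring has cardinality at least `ℵ₁`, and some proper colouring uses a set of `ℵ₁`
colours) which contains no `K(ℵ₀,ℵ₀)` (no two infinite vertex sets are completely joined) and in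
which every closed walk of odd length, in particular every odd cycle, has length more than
`2k+1`. No hypothesis beyond ZFC is used. -/
theorem result (k : ℕ) : ∃ (V : Type) (G : SimpleGraph V),
    (∀ C : Type, Nonempty (G.Coloring C) → Cardinal.aleph.{0} 1 ≤ Cardinal.mk C) ∧
    (∃ C : Type, Cardinal.mk C = Cardinal.aleph.{0} 1 ∧ Nonempty (G.Coloring C)) ∧
    (¬ ∃ A B : Set V, A.Infinite ∧ B.Infinite ∧ ∀ a ∈ A, ∀ b ∈ B, G.Adj a b) ∧
    ∀ (v : V) (p : G.Walk v v), Odd p.length → 2*k+1 < p.length :=
  Pool.Agent.H15.Cyc.final k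

end Pool.Agent.Results.MP_037fd6_co.OddGirth
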